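import Pool.Agent.N912.MS.Stm
import Pool.Agent.W78.GA.Basic
import Pool.Agent.H376R2.MR.Fej

/-!
# Project MS (helper912), MS5: the large sieve (helper277)
-/

set_option autoImplicit false

namespace Pool.Agent.N277.MS

open Finset Pool.Agent.N912.MS
open Pool.Agent.H376R2.MR (ch FK Fj Fj_nonneg Fj_le Fj_le_sq fej_exp)
open Pool.Agent.W78.GA (Qd nm ball win ang ps tc nm_eq_norm_sq norm_tc mem_win tc_ne_zero
  one_le_nm ps_eq_exp conj_ps)

lemma hD : (0 : ℤ) ^ 2 < 4 * 1 := by norm_num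

lemma Fj_even (K : ℕ) (u : ℝ) : Fj K (-u) = Fj K u := by
  unfold Fj
  refine sum_congr rfl fun k _ => ?_
  rw [mul_neg, Real.cos_neg]

lemma Fj_per (K : ℕ) (u : ℝ) (n : ℤ) : Fj K (u + n * (2 * Real.pi)) = Fj K u := by
  unfold Fj
  refine sum_congr rfl fun k _ => ?_
  congr 1
  have h : (k : ℝ) * (u + n * (2 * Real.pi)) = k * u + ((k * n : ℤ) : ℝ) * (2 * Real.pi) := by
    push_cast
    ring
  rw [h, Real.cos_add_int_mul_two_pi]

/-- the profile -/
noncomputable def gi (i : ℤ) : ℝ := 1 / (1 + (i : ℝ) ^ 2)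

lemma gi_pos (i : ℤ) : 0 < gi i := by
  unfold gi
  positivity

lemma gi_summable : Summable gi := by
  have h1 : Summable fun i : ℤ => 1 / (i : ℝ) ^ 2 := Real.summable_one_div_int_pow.2 (by norm_num)
  have h2 : Summable fun i : ℤ => (if i = 0 then (1 : ℝ) else 0) + 1 / (i : ℝ) ^ 2 :=
    (summable_of_ne_finset_zero (s := {0}) fun i hi => by
      rw [if_neg (by simpa using hi)]).add h1
  refine Summable.of_nonneg_of_le (fun i => (gi_pos i).le) (fun i => ?_) h2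
  unfold gi
  by_cases hi : i = 0
  · subst hi
    simp
  · rw [if_neg hi, zero_add]
    have : (0 : ℝ) < (i : ℝ) ^ 2 := by positivity
    apply one_div_le_one_div_of_le this
    linarith

lemma gi_sum (S : Finset ℤ) : ∑ i ∈ S, gi i ≤ ∑' i, gi i :=
  gi_summable.sum_le_tsum S fun i _ => (gi_pos i).le

lemma Fj_decay {B : ℕ} (hB : 1 ≤ B) {u : ℝ} (hu0 : u ≠ 0) (hu : |u| ≤ 4) :
    Fj B u ≤ 40 / (B * u ^ 2) := by
  have hB0 : (0 : ℝ) < B := by exact_mod_cast hB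
  have hu2 : 0 < u ^ 2 := by positivity
  have hpi := Real.pi_gt_three
  have hpi4 := Real.pi_lt_d2
  have hpisq : Real.pi ^ 2 ≤ 10 := by nlinarith
  rcases le_or_gt |u| Real.pi with h | h
  · refine (Fj_le_sq hB hu0 h).trans ?_
    gcongr
    linarith
  · obtain ⟨v, hv, hFv⟩ : ∃ v : ℝ, |v| = 2 * Real.pi - |u| ∧ Fj B u = Fj B v := by
      rcases le_or_gt 0 u with h0 | h0
      · refine ⟨u - 2 * Real.pi, ?_, ?_⟩
        · rw [abs_of_nonneg h0] at hu ⊢
          rw [abs_of_nonpos (by linarith)]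
          ring
        · have := Fj_per B u (-1)
          rw [← this]
          congr 1
          push_cast
          ring
      · refine ⟨u + 2 * Real.pi, ?_, ?_⟩
        · rw [abs_of_neg h0] at hu ⊢
          rw [abs_of_nonneg (by linarith)]
          ring
        · have := Fj_per B u 1
          rw [← this]
          congr 1
          push_cast
          ring
    have hv1 : 2 ≤ |v| := by
      rw [hv]
      linarith
    have hv2 : |v| ≤ Real.pi := by
      rw [hv]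
      linarith
    have hv0 : v ≠ 0 := by
      intro h0
      rw [h0, abs_zero] at hv1
      linarith
    have hvsq : 4 ≤ v ^ 2 := by
      rw [← sq_abs]
      nlinarith
    rw [hFv]
    refine (Fj_le_sq hB hv0 hv2).trans ?_
    have husq : u ^ 2 ≤ 16 := by
      rw [← sq_abs]
      nlinarith [abs_nonneg u]
    calc Real.pi ^ 2 / (B * v ^ 2) ≤ 10 / (B * 4) := by gcongr
      _ = 40 / (B * 16) := by
        field_simp
        norm_num
      _ ≤ 40 / (B * u ^ 2) := by gcongr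

lemma Fj_box {B : ℕ} (hB : 1 ≤ B) {u : ℝ} (hu : |u| ≤ 4) :
    Fj B u ≤ 120 * B * gi ⌊B * u⌋ := by
  have hB0 : (0 : ℝ) < B := by exact_mod_cast hB
  obtain ⟨i, hi⟩ : ∃ i, i = ⌊(B : ℝ) * u⌋ := ⟨_, rfl⟩
  obtain ⟨y, hy⟩ : ∃ y, y = (B : ℝ) * u := ⟨_, rfl⟩
  have h1 : (i : ℝ) ≤ y := by
    rw [hi, hy]
    exact Int.floor_le _
  have h2 : y < i + 1 := by
    rw [hi, hy]
    exact Int.lt_floor_add_one _
  have h3 : 1 + (i : ℝ) ^ 2 ≤ 3 + 2 * y ^ 2 := by
    have h4 : 0 ≤ (y - i) := by linarith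
    have h5 : (y - i) ≤ 1 := by linarith
    nlinarith [sq_nonneg (y + (y - i)), sq_nonneg (y - i)]
  rw [← hi]
  unfold gi
  have hpos : 0 < 1 + (i : ℝ) ^ 2 := by positivity
  rw [mul_one_div, le_div_iff₀ hpos]
  rcases le_or_gt (y ^ 2) 40 with h | h
  · have h6 := Fj_le B u
    have h7 : Fj B u * (1 + (i : ℝ) ^ 2) ≤ B * 83 := by
      apply mul_le_mul h6 (by linarith) hpos.le hB0.le
    linarith
  · have hu0 : u ≠ 0 := by
      intro h0
      rw [h0, mul_zero] at hy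
      rw [hy] at h
      norm_num at h
    have h6 := Fj_decay hB hu0 hu
    have h7 : 40 / ((B : ℝ) * u ^ 2) = 40 * B / y ^ 2 := by
      rw [hy]
      field_simp
    rw [h7] at h6
    have hy0 : 0 < y ^ 2 := by linarith
    rw [le_div_iff₀ hy0] at h6
    have h8 : 0 ≤ Fj B u := Fj_nonneg B u
    have h9 : Fj B u * (1 + (i : ℝ) ^ 2) ≤ Fj B u * (3 * y ^ 2) := by
      apply mul_le_mul_of_nonneg_left _ h8
      linarith
    linarith

/-! ### counting -/

lemma tc_re' (z : Gi) : (tc z).re = z.re := by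
  rw [Pool.Agent.W78.GA.tc_re]
  simp

lemma tc_im' (z : Gi) : (tc z).im = z.im := by
  rw [Pool.Agent.W78.GA.tc_im]
  have h : Real.sqrt (4 * ((1 : ℤ) : ℝ) - ((0 : ℤ) : ℝ) ^ 2) = 2 := by
    rw [show (4 * ((1 : ℤ) : ℝ) - ((0 : ℤ) : ℝ) ^ 2) = 2 ^ 2 by push_cast; norm_num]
    exact Real.sqrt_sq (by norm_num)
  rw [h]
  ring

/-- the elements in a small disc -/
lemma card_disc (T : Finset Gi) (z0 : Gi) (ρ : ℝ) (hρ : 0 ≤ ρ)
    (h : ∀ z ∈ T, ‖tc z - tc z0‖ ≤ ρ) : (T.card : ℝ) ≤ 8 * ρ ^ 2 + 2 := by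
  have h1 : T.card ≤ ((Icc (-(⌊ρ⌋₊ : ℤ)) ⌊ρ⌋₊) ×ˢ (Icc (-(⌊ρ⌋₊ : ℤ)) ⌊ρ⌋₊)).card := by
    apply card_le_card_of_injOn (fun z => (z.re - z0.re, z.im - z0.im))
    · intro z hz
      have h2 := h z hz
      have h3 : |((z.re - z0.re : ℤ) : ℝ)| ≤ ρ := by
        have := Complex.abs_re_le_norm (tc z - tc z0)
        rw [Complex.sub_re, tc_re', tc_re'] at this
        push_cast
        linarith
      have h4 : |((z.im - z0.im : ℤ) : ℝ)| ≤ ρ := by
        have := Complex.abs_im_le_norm (tc z - tc z0)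
        rw [Complex.sub_im, tc_im', tc_im'] at this
        push_cast
        linarith
      have key : ∀ x : ℤ, |(x : ℝ)| ≤ ρ → -(⌊ρ⌋₊ : ℤ) ≤ x ∧ x ≤ ⌊ρ⌋₊ := by
        intro x hx
        have h5 : x.natAbs ≤ ⌊ρ⌋₊ := by
          apply Nat.le_floor
          rw [Nat.cast_natAbs]
          exact_mod_cast hx
        omega
      rw [mem_coe, mem_product, mem_Icc, mem_Icc]
      exact ⟨key _ h3, key _ h4⟩
    · intro z _ z' _ hzz
      rw [Prod.mk.injEq] at hzz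
      exact QuadraticAlgebra.ext (by omega) (by omega)
  rw [card_product, Int.card_Icc] at h1
  have h2 : ((⌊ρ⌋₊ : ℤ) + 1 - -(⌊ρ⌋₊ : ℤ)).toNat = 2 * ⌊ρ⌋₊ + 1 := by omega
  rw [h2] at h1
  have h3 : (T.card : ℝ) ≤ (2 * (⌊ρ⌋₊ : ℝ) + 1) * (2 * (⌊ρ⌋₊ : ℝ) + 1) := by exact_mod_cast h1
  have h4 : (⌊ρ⌋₊ : ℝ) ≤ ρ := Nat.floor_le hρ
  have h5 : (0 : ℝ) ≤ (⌊ρ⌋₊ : ℝ) := Nat.cast_nonneg _
  nlinarith [sq_nonneg (2 * ρ - 1)]

/-- the two coordinates relative to `z` -/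
noncomputable def th (z z' : Gi) : ℝ := Complex.arg (tc z' / tc z)

/-- the two coordinates relative to `z` -/
noncomputable def la (z z' : Gi) : ℝ := Real.log (nm z') - Real.log (nm z)

lemma la_eq {z z' : Gi} (hz : z ≠ 0) (hz' : z' ≠ 0) :
    la z z' = 2 * (Complex.log (tc z' / tc z)).re := by
  have h1 := norm_pos_iff.2 (tc_ne_zero hD hz)
  have h2 := norm_pos_iff.2 (tc_ne_zero hD hz')
  rw [Complex.log_re, norm_div, Real.log_div h2.ne' h1.ne', la, nm_eq_norm_sq hD z,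
    nm_eq_norm_sq hD z', Real.log_pow, Real.log_pow]
  push_cast
  ring

lemma close {B : ℕ} (hB : 2 ≤ B) {X : ℝ} {z z0 z' : Gi} (hz : z ≠ 0) (hz0 : z0 ≠ 0)
    (hz' : z' ≠ 0) (hX : (nm z0 : ℝ) ≤ Real.exp 2 * X)
    (h1 : ⌊(B : ℝ) * th z z'⌋ = ⌊(B : ℝ) * th z z0⌋)
    (h2 : ⌊(B : ℝ) * la z z'⌋ = ⌊(B : ℝ) * la z z0⌋) :
    ‖tc z' - tc z0‖ ≤ 3 * Real.sqrt (Real.exp 2 * X) / B := by
  have hB0 : (2 : ℝ) ≤ B := by exact_mod_cast hB
  have hB1 : (0 : ℝ) < B := by linarith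
  have hc := tc_ne_zero hD hz
  have hc0 := tc_ne_zero hD hz0
  have hc' := tc_ne_zero hD hz'
  have key : ∀ x y : ℝ, ⌊(B : ℝ) * x⌋ = ⌊(B : ℝ) * y⌋ → |x - y| ≤ 1 / B := by
    intro x y h
    have e1 := Int.abs_sub_lt_one_of_floor_eq_floor h
    rw [← mul_sub, abs_mul, abs_of_pos hB1] at e1
    rw [le_div_iff₀ hB1, mul_comm]
    exact e1.le
  obtain ⟨L', hL'⟩ : ∃ L, L = Complex.log (tc z' / tc z) := ⟨_, rfl⟩
  obtain ⟨L0, hL0⟩ : ∃ L, L = Complex.log (tc z0 / tc z) := ⟨_, rfl⟩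
  have e1 : Complex.exp L' = tc z' / tc z := by
    rw [hL']
    exact Complex.exp_log (div_ne_zero hc' hc)
  have e2 : Complex.exp L0 = tc z0 / tc z := by
    rw [hL0]
    exact Complex.exp_log (div_ne_zero hc0 hc)
  have e3 : ‖L' - L0‖ ≤ 3 / (2 * B) := by
    have k1 := key _ _ h1
    have k2 := key _ _ h2
    rw [la_eq hz hz', la_eq hz hz0, ← hL', ← hL0, ← mul_sub, abs_mul,
      abs_of_pos (by norm_num : (0 : ℝ) < 2)] at k2
    have k3 : th z z' - th z z0 = (L' - L0).im := by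
      rw [Complex.sub_im, hL', hL0, Complex.log_im, Complex.log_im]
      rfl
    rw [k3] at k1
    have k4 := Complex.norm_le_abs_re_add_abs_im (L' - L0)
    rw [Complex.sub_re] at k4
    have k5 : 3 / (2 * (B : ℝ)) = (1 / 2) * (1 / B) + 1 / B := by
      field_simp
      norm_num
    rw [k5]
    linarith
  have e4 : ‖L' - L0‖ ≤ 1 := by
    refine e3.trans ?_
    rw [div_le_one (by positivity)]
    linarith
  have e5 : tc z' - tc z0 = tc z0 * (Complex.exp (L' - L0) - 1) := by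
    rw [Complex.exp_sub, e1, e2]
    field_simp
  have e6 := Complex.norm_exp_sub_one_le e4
  have e7 : ‖tc z0‖ ≤ Real.sqrt (Real.exp 2 * X) := by
    rw [norm_tc hD]
    exact Real.sqrt_le_sqrt hX
  rw [e5, norm_mul]
  calc ‖tc z0‖ * ‖Complex.exp (L' - L0) - 1‖
      ≤ Real.sqrt (Real.exp 2 * X) * (2 * (3 / (2 * B))) := by
        apply mul_le_mul e7 (by linarith) (norm_nonneg _) (Real.sqrt_nonneg _)
    _ = _ := by
        field_simp

/-- one row -/
lemma row {B : ℕ} (hB : 2 ≤ B) {X : ℝ} (hX : 1 ≤ X) {s : Finset Gi} (hs : s ⊆ win 0 1 X)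
    {z : Gi} (hz : z ∈ win 0 1 X) :
    ∑ z' ∈ s, Fj B (th z z') * Fj B (la z z') ≤
      14400 * (∑' i, gi i) ^ 2 * (72 * (Real.exp 2 * X) + 2 * (B : ℝ) ^ 2) := by
  have hB0 : (2 : ℝ) ≤ B := by exact_mod_cast hB
  have hB1 : (0 : ℝ) < B := by linarith
  have hX0 : 0 < X := by linarith
  have hne : ∀ z' ∈ win 0 1 X, z' ≠ (0 : Gi) := fun z' hz' =>
    (one_le_nm hD).1 ((mem_win hD).1 hz').1
  have hlog : ∀ z' ∈ win 0 1 X, |Real.log (nm z') - Real.log X| ≤ 2 := by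
    intro z' hz'
    obtain ⟨g1, g2, g3⟩ := (mem_win hD).1 hz'
    have g4 : (0 : ℝ) < nm z' := by exact_mod_cast g1
    have g5 := Real.log_le_log (by positivity) g2
    have g6 := Real.log_le_log g4 g3
    rw [Real.log_div hX0.ne' (Real.exp_pos _).ne', Real.log_exp] at g5
    rw [Real.log_mul (Real.exp_pos _).ne' hX0.ne', Real.log_exp] at g6
    rw [abs_le]
    constructor <;> linarith
  have hla : ∀ z' ∈ win 0 1 X, |la z z'| ≤ 4 := by
    intro z' hz'
    have g1 := hlog z' hz'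
    have g2 := hlog z hz
    rw [abs_le] at g1 g2 ⊢
    unfold la
    constructor <;> linarith [g1.1, g1.2, g2.1, g2.2]
  have hth : ∀ z' : Gi, |th z z'| ≤ 4 := by
    intro z'
    have g1 := Complex.abs_arg_le_pi (tc z' / tc z)
    have g2 := Real.pi_lt_d2
    unfold th
    linarith
  obtain ⟨h, hh⟩ : ∃ h : Gi → ℤ × ℤ, ∀ z', h z' = (⌊(B : ℝ) * th z z'⌋, ⌊(B : ℝ) * la z z'⌋) :=
    ⟨_, fun _ => rfl⟩
  obtain ⟨N, hN⟩ : ∃ N : ℝ, N = 72 * (Real.exp 2 * X) / (B : ℝ) ^ 2 + 2 := ⟨_, rfl⟩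
  have hN0 : 0 ≤ N := by
    rw [hN]
    positivity
  have hcount : ∀ p, ((s.filter (fun z' => h z' = p)).card : ℝ) ≤ N := by
    intro p
    rcases (s.filter (fun z' => h z' = p)).eq_empty_or_nonempty with he | ⟨z0, hz0⟩
    · rw [he]
      simpa using hN0
    · rw [mem_filter] at hz0
      have g1 := card_disc (s.filter (fun z' => h z' = p)) z0
        (3 * Real.sqrt (Real.exp 2 * X) / B) (by positivity) (by
          intro z' hz'
          rw [mem_filter] at hz'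
          have g2 : h z' = h z0 := hz'.2.trans hz0.2.symm
          rw [hh, hh, Prod.mk.injEq] at g2
          exact close hB (hne z hz) (hne z0 (hs hz0.1)) (hne z' (hs hz'.1))
            ((mem_win hD).1 (hs hz0.1)).2.2 g2.1 g2.2)
      refine g1.trans (le_of_eq ?_)
      rw [hN, div_pow, mul_pow, Real.sq_sqrt (by positivity)]
      ring
  calc ∑ z' ∈ s, Fj B (th z z') * Fj B (la z z')
      ≤ ∑ z' ∈ s, (14400 * (B : ℝ) ^ 2) * (gi (h z').1 * gi (h z').2) := by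
        apply sum_le_sum
        intro z' hz'
        have g1 := Fj_box (by omega : 1 ≤ B) (hth z')
        have g2 := Fj_box (by omega : 1 ≤ B) (hla z' (hs hz'))
        rw [hh]
        calc Fj B (th z z') * Fj B (la z z')
            ≤ (120 * B * gi ⌊(B : ℝ) * th z z'⌋) * (120 * B * gi ⌊(B : ℝ) * la z z'⌋) := by
              apply mul_le_mul g1 g2 (Fj_nonneg _ _)
              exact mul_nonneg (by positivity) (gi_pos _).le
          _ = _ := by ring
    _ = (14400 * (B : ℝ) ^ 2) * ∑ z' ∈ s, gi (h z').1 * gi (h z').2 := by rw [mul_sum]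
    _ ≤ (14400 * (B : ℝ) ^ 2) * (N * (∑' i, gi i) ^ 2) := by
        apply mul_le_mul_of_nonneg_left _ (by positivity)
        rw [sum_comp (fun p : ℤ × ℤ => gi p.1 * gi p.2) h]
        calc ∑ p ∈ s.image h, (s.filter (fun z' => h z' = p)).card • (gi p.1 * gi p.2)
            ≤ ∑ p ∈ s.image h, N * (gi p.1 * gi p.2) := by
              apply sum_le_sum
              intro p _
              rw [nsmul_eq_mul]
              exact mul_le_mul_of_nonneg_right (hcount p)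
                (mul_nonneg (gi_pos _).le (gi_pos _).le)
          _ = N * ∑ p ∈ s.image h, gi p.1 * gi p.2 := by rw [mul_sum]
          _ ≤ N * (∑' i, gi i) ^ 2 := by
              apply mul_le_mul_of_nonneg_left _ hN0
              calc ∑ p ∈ s.image h, gi p.1 * gi p.2
                  ≤ ∑ p ∈ ((s.image h).image Prod.fst) ×ˢ ((s.image h).image Prod.snd),
                    gi p.1 * gi p.2 := by
                    apply sum_le_sum_of_subset_of_nonneg
                    · intro p hp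
                      rw [mem_product]
                      exact ⟨mem_image_of_mem _ hp, mem_image_of_mem _ hp⟩
                    · intro p _ _
                      exact mul_nonneg (gi_pos _).le (gi_pos _).le
                _ = (∑ i ∈ (s.image h).image Prod.fst, gi i) *
                    ∑ j ∈ (s.image h).image Prod.snd, gi j := by
                    rw [sum_mul_sum, ← sum_product']
                _ ≤ (∑' i, gi i) * ∑' i, gi i := by
                    apply mul_le_mul (gi_sum _) (gi_sum _)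
                    · exact sum_nonneg fun i _ => (gi_pos i).le
                    · exact tsum_nonneg fun i => (gi_pos i).le
                _ = _ := by ring
    _ = _ := by
        rw [hN]
        field_simp

/-! ### the energy -/

lemma term_eq {z z' : Gi} (hz : z ≠ 0) (hz' : z' ≠ 0) (κ : ℤ × ℤ) :
    chi κ z * (starRingEnd ℂ) (chi κ z') =
      Complex.exp (-((κ.1 * (ang z' - ang z) : ℝ) : ℂ) * Complex.I) *
        Complex.exp (-((κ.2 * la z' z : ℝ) : ℂ) * Complex.I) := by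
  unfold chi
  rw [map_mul, conj_ps hD hz', ps_eq_exp hD hz, ps_eq_exp hD hz']
  unfold ch la
  rw [← Complex.exp_conj, ← Complex.exp_add, ← Complex.exp_add, ← Complex.exp_add,
    ← Complex.exp_add]
  congr 1
  rw [map_mul, map_neg, Complex.conj_I, Complex.conj_ofReal]
  push_cast
  ring

/-- the Fejer energy -/
lemma energy (B : ℕ) (s : Finset Gi) (hs : ∀ z ∈ s, z ≠ 0) (a : Gi → ℂ) :
    ((∑ k ∈ FK B, ∑ l ∈ FK B, ((1 - |(k : ℝ)| / B) * (1 - |(l : ℝ)| / B)) *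
      ‖DP2 s a (k, l)‖ ^ 2 : ℝ) : ℂ) =
      ∑ z ∈ s, ∑ z' ∈ s, a z * (starRingEnd ℂ) (a z') *
        ((Fj B (ang z' - ang z) : ℂ) * (Fj B (la z' z) : ℂ)) := by
  have h1 : ∀ k l : ℤ, (((((1 - |(k : ℝ)| / B) * (1 - |(l : ℝ)| / B)) *
      ‖DP2 s a (k, l)‖ ^ 2 : ℝ)) : ℂ) = ∑ z ∈ s, ∑ z' ∈ s, a z * (starRingEnd ℂ) (a z') *
        ((((1 - |(k : ℝ)| / B : ℝ) : ℂ) *
          Complex.exp (-((k * (ang z' - ang z) : ℝ) : ℂ) * Complex.I)) *
        (((1 - |(l : ℝ)| / B : ℝ) : ℂ) *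
          Complex.exp (-((l * la z' z : ℝ) : ℂ) * Complex.I))) := by
    intro k l
    have h2 : (((‖DP2 s a (k, l)‖ ^ 2 : ℝ)) : ℂ) =
        DP2 s a (k, l) * (starRingEnd ℂ) (DP2 s a (k, l)) := by
      rw [Complex.mul_conj, Complex.normSq_eq_norm_sq]
    rw [Complex.ofReal_mul, h2]
    unfold DP2
    rw [map_sum, sum_mul_sum, mul_sum]
    refine sum_congr rfl fun z hz => ?_
    rw [mul_sum]
    refine sum_congr rfl fun z' hz' => ?_
    rw [map_mul]
    have h3 := term_eq (hs z hz) (hs z' hz') (k, l)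
    simp only at h3
    rw [Complex.ofReal_mul]
    linear_combination (a z * (starRingEnd ℂ) (a z') * (((1 - |(k : ℝ)| / B : ℝ) : ℂ) *
      ((1 - |(l : ℝ)| / B : ℝ) : ℂ))) * h3
  rw [Complex.ofReal_sum]
  simp only [Complex.ofReal_sum, h1]
  have h4 : ∀ k ∈ FK B, ∑ l ∈ FK B, ∑ z ∈ s, ∑ z' ∈ s, a z * (starRingEnd ℂ) (a z') *
        ((((1 - |(k : ℝ)| / B : ℝ) : ℂ) *
          Complex.exp (-((k * (ang z' - ang z) : ℝ) : ℂ) * Complex.I)) *
        (((1 - |(l : ℝ)| / B : ℝ) : ℂ) *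
          Complex.exp (-((l * la z' z : ℝ) : ℂ) * Complex.I))) =
      ∑ z ∈ s, ∑ z' ∈ s, a z * (starRingEnd ℂ) (a z') *
        ((((1 - |(k : ℝ)| / B : ℝ) : ℂ) *
          Complex.exp (-((k * (ang z' - ang z) : ℝ) : ℂ) * Complex.I)) *
        (Fj B (la z' z) : ℂ)) := by
    intro k _
    rw [sum_comm]
    refine sum_congr rfl fun z _ => ?_
    rw [sum_comm]
    refine sum_congr rfl fun z' _ => ?_
    rw [← mul_sum, ← mul_sum, fej_exp]
  rw [sum_congr rfl h4, sum_comm]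
  refine sum_congr rfl fun z _ => ?_
  rw [sum_comm]
  refine sum_congr rfl fun z' _ => ?_
  rw [← mul_sum, ← sum_mul, fej_exp]

lemma Fj_ang {z z' : Gi} (hz : z ≠ 0) (hz' : z' ≠ 0) (B : ℕ) :
    Fj B (ang z' - ang z) = Fj B (th z z') := by
  have h1 := Complex.arg_div_coe_angle (tc_ne_zero hD hz') (tc_ne_zero hD hz)
  rw [← Real.Angle.coe_sub, Real.Angle.angle_eq_iff_two_pi_dvd_sub] at h1
  obtain ⟨n, hn⟩ := h1
  have h2 : th z z' = (ang z' - ang z) + n * (2 * Real.pi) := by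
    unfold th ang
    linarith
  rw [h2, Fj_per]

lemma th_symm {z z' : Gi} (hz : z ≠ 0) (hz' : z' ≠ 0) (B : ℕ) :
    Fj B (th z' z) = Fj B (th z z') := by
  rw [← Fj_ang hz hz', ← Fj_ang hz' hz, ← Fj_even]
  congr 1
  ring

lemma la_symm (z z' : Gi) (B : ℕ) : Fj B (la z' z) = Fj B (la z z') := by
  rw [← Fj_even]
  congr 1
  unfold la
  ring

/-- MS5 -/
theorem ls2 : S_LS2 := by
  have hS0 : 0 < ∑' i, gi i := gi_summable.tsum_pos (fun i => (gi_pos i).le) 0 (gi_pos 0)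
  obtain ⟨S, hS⟩ : ∃ S, S = ∑' i, gi i := ⟨_, rfl⟩
  rw [← hS] at hS0
  refine ⟨4 * (14400 * S ^ 2 * (72 * Real.exp 2 + 32)), by positivity, ?_⟩
  intro X K s a hX hK hs
  obtain ⟨B, hBdef⟩ : ∃ B, B = 2 * (Nat.sqrt K + 1) := ⟨_, rfl⟩
  have hB : 2 ≤ B := by omega
  have hB0 : (2 : ℝ) ≤ B := by exact_mod_cast hB
  have hB1 : (0 : ℝ) < B := by linarith
  have hK0 : (1 : ℝ) ≤ K := by exact_mod_cast hK
  have hBK : (B : ℝ) ^ 2 ≤ 16 * K := by
    have h1 : Nat.sqrt K * Nat.sqrt K ≤ K := Nat.sqrt_le K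
    have h2 : (Nat.sqrt K : ℝ) * Nat.sqrt K ≤ K := by exact_mod_cast h1
    rw [hBdef]
    push_cast
    nlinarith [sq_nonneg ((Nat.sqrt K : ℝ) - 1)]
  have hne : ∀ z ∈ s, z ≠ 0 := fun z hz => (one_le_nm hD).1 ((mem_win hD).1 (hs hz)).1
  -- the weights
  have hw : ∀ k : ℤ, k ^ 2 < (K : ℤ) → k ∈ FK B ∧ 1 / 2 ≤ 1 - |(k : ℝ)| / B := by
    intro k hk
    have h1 : k.natAbs ≤ Nat.sqrt K := by
      rw [Nat.le_sqrt]
      have h2 : ((k.natAbs * k.natAbs : ℕ) : ℤ) = k ^ 2 := by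
        rw [Int.natCast_mul, Int.natAbs_mul_self' k, pow_two]
      have h3 : ((k.natAbs * k.natAbs : ℕ) : ℤ) ≤ (K : ℤ) := by
        rw [h2]
        exact hk.le
      exact_mod_cast h3
    constructor
    · unfold FK
      rw [mem_Ioo]
      omega
    · have h2 : |(k : ℝ)| ≤ Nat.sqrt K := by
        have h3 : ((k.natAbs : ℕ) : ℝ) ≤ Nat.sqrt K := by exact_mod_cast h1
        rwa [Nat.cast_natAbs, Int.cast_abs] at h3
      have h3 : |(k : ℝ)| / B ≤ 1 / 2 := by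
        rw [div_le_iff₀ hB1, hBdef]
        push_cast
        linarith
      linarith
  have hw0 : ∀ k ∈ FK B, 0 ≤ 1 - |(k : ℝ)| / B := by
    intro k hk
    unfold FK at hk
    rw [mem_Ioo] at hk
    have h1 : |(k : ℝ)| ≤ B := by
      rw [abs_le]
      constructor
      · exact_mod_cast hk.1.le
      · exact_mod_cast hk.2.le
    have h2 : |(k : ℝ)| / B ≤ 1 := by
      rw [div_le_one hB1]
      exact h1
    linarith
  obtain ⟨F, hF⟩ : ∃ F : Gi → Gi → ℝ, ∀ z z', F z z' = Fj B (th z z') * Fj B (la z z') :=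
    ⟨_, fun _ _ => rfl⟩
  have hF0 : ∀ z z', 0 ≤ F z z' := fun z z' => by
    rw [hF]
    exact mul_nonneg (Fj_nonneg _ _) (Fj_nonneg _ _)
  have hFs : ∀ z ∈ s, ∀ z' ∈ s, F z z' = F z' z := by
    intro z hz z' hz'
    rw [hF, hF, th_symm (hne z hz) (hne z' hz'), la_symm z z']
  obtain ⟨W, hW⟩ : ∃ W : ℝ, W = ∑ k ∈ FK B, ∑ l ∈ FK B,
    ((1 - |(k : ℝ)| / B) * (1 - |(l : ℝ)| / B)) * ‖DP2 s a (k, l)‖ ^ 2 := ⟨_, rfl⟩
  have hstep1 : ∑ κ ∈ FB K, ‖DP2 s a κ‖ ^ 2 ≤ 4 * W := by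
    rw [hW, ← sum_product' (FK B) (FK B) (fun k l => ((1 - |(k : ℝ)| / B) *
      (1 - |(l : ℝ)| / B)) * ‖DP2 s a (k, l)‖ ^ 2), mul_sum]
    calc ∑ κ ∈ FB K, ‖DP2 s a κ‖ ^ 2
        ≤ ∑ κ ∈ FB K, 4 * (((1 - |(κ.1 : ℝ)| / B) * (1 - |(κ.2 : ℝ)| / B)) *
          ‖DP2 s a (κ.1, κ.2)‖ ^ 2) := by
          apply sum_le_sum
          intro κ hκ
          unfold FB at hκ
          rw [mem_filter] at hκ
          have h1 : nrm κ < (K : ℤ) := hκ.2
          unfold nrm at h1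
          have h2 := (hw κ.1 (lt_of_le_of_lt (le_max_left _ _) h1)).2
          have h3 := (hw κ.2 (lt_of_le_of_lt (le_max_right _ _) h1)).2
          have h4 : 0 ≤ ‖DP2 s a κ‖ ^ 2 := by positivity
          have h5 : 1 / 4 ≤ (1 - |(κ.1 : ℝ)| / B) * (1 - |(κ.2 : ℝ)| / B) := by nlinarith
          show ‖DP2 s a κ‖ ^ 2 ≤ 4 * (((1 - |(κ.1 : ℝ)| / B) * (1 - |(κ.2 : ℝ)| / B)) *
            ‖DP2 s a κ‖ ^ 2)
          nlinarith
      _ ≤ ∑ κ ∈ FK B ×ˢ FK B, 4 * (((1 - |(κ.1 : ℝ)| / B) * (1 - |(κ.2 : ℝ)| / B)) *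
          ‖DP2 s a (κ.1, κ.2)‖ ^ 2) := by
          apply sum_le_sum_of_subset_of_nonneg
          · intro κ hκ
            unfold FB at hκ
            rw [mem_filter] at hκ
            have h1 : nrm κ < (K : ℤ) := hκ.2
            unfold nrm at h1
            rw [mem_product]
            exact ⟨(hw κ.1 (lt_of_le_of_lt (le_max_left _ _) h1)).1,
              (hw κ.2 (lt_of_le_of_lt (le_max_right _ _) h1)).1⟩
          · intro κ hκ _
            rw [mem_product] at hκ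
            have h1 := hw0 κ.1 hκ.1
            have h2 := hw0 κ.2 hκ.2
            positivity
  have hstep2 : W ≤ ∑ z ∈ s, ∑ z' ∈ s, ‖a z‖ * ‖a z'‖ * F z z' := by
    have h1 := energy B s hne a
    rw [← hW] at h1
    have h2 : W = ‖(W : ℂ)‖ := by
      rw [Complex.norm_real, Real.norm_of_nonneg]
      rw [hW]
      apply sum_nonneg
      intro k hk
      apply sum_nonneg
      intro l hl
      have h1 := hw0 k hk
      have h2 := hw0 l hl
      positivity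
    rw [h2, h1]
    refine (norm_sum_le _ _).trans (sum_le_sum fun z hz => ?_)
    refine (norm_sum_le _ _).trans (sum_le_sum fun z' hz' => ?_)
    rw [norm_mul, norm_mul, norm_mul, RCLike.norm_conj, Complex.norm_real, Complex.norm_real,
      Real.norm_of_nonneg (Fj_nonneg _ _), Real.norm_of_nonneg (Fj_nonneg _ _),
      Fj_ang (hne z hz) (hne z' hz'), la_symm z z', hF]
  obtain ⟨R, hR⟩ : ∃ R : ℝ, R = 14400 * S ^ 2 * (72 * (Real.exp 2 * X) + 2 * (B : ℝ) ^ 2) :=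
    ⟨_, rfl⟩
  have hrow : ∀ z ∈ s, ∑ z' ∈ s, F z z' ≤ R := by
    intro z hz
    rw [hR, hS]
    simp only [hF]
    exact row hB hX hs (hs hz)
  have hstep3 : ∑ z ∈ s, ∑ z' ∈ s, ‖a z‖ * ‖a z'‖ * F z z' ≤ R * ∑ z ∈ s, ‖a z‖ ^ 2 := by
    calc ∑ z ∈ s, ∑ z' ∈ s, ‖a z‖ * ‖a z'‖ * F z z'
        ≤ ∑ z ∈ s, ∑ z' ∈ s, ((‖a z‖ ^ 2 / 2) * F z z' + (‖a z'‖ ^ 2 / 2) * F z z') := by
          apply sum_le_sum
          intro z _
          apply sum_le_sum
          intro z' _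
          have h1 := hF0 z z'
          have h2 : ‖a z‖ * ‖a z'‖ ≤ ‖a z‖ ^ 2 / 2 + ‖a z'‖ ^ 2 / 2 := by
            nlinarith [sq_nonneg (‖a z‖ - ‖a z'‖)]
          nlinarith
      _ = ∑ z ∈ s, ∑ z' ∈ s, (‖a z‖ ^ 2 / 2) * F z z' +
          ∑ z ∈ s, ∑ z' ∈ s, (‖a z'‖ ^ 2 / 2) * F z z' := by
          simp only [sum_add_distrib]
      _ = ∑ z ∈ s, ∑ z' ∈ s, (‖a z‖ ^ 2 / 2) * F z z' +
          ∑ z ∈ s, ∑ z' ∈ s, (‖a z‖ ^ 2 / 2) * F z z' := by
          congr 1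
          rw [sum_comm]
          apply sum_congr rfl
          intro z hz
          apply sum_congr rfl
          intro z' hz'
          rw [hFs z' hz' z hz]
      _ = ∑ z ∈ s, ‖a z‖ ^ 2 * ∑ z' ∈ s, F z z' := by
          rw [← sum_add_distrib]
          apply sum_congr rfl
          intro z _
          rw [← mul_sum]
          ring
      _ ≤ ∑ z ∈ s, ‖a z‖ ^ 2 * R := by
          apply sum_le_sum
          intro z hz
          exact mul_le_mul_of_nonneg_left (hrow z hz) (by positivity)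
      _ = R * ∑ z ∈ s, ‖a z‖ ^ 2 := by
          rw [← sum_mul, mul_comm]
  have hsum0 : 0 ≤ ∑ z ∈ s, ‖a z‖ ^ 2 := sum_nonneg fun _ _ => by positivity
  have hRle : 4 * R ≤ 4 * (14400 * S ^ 2 * (72 * Real.exp 2 + 32)) * (K + X) := by
    rw [hR]
    have h1 : 72 * (Real.exp 2 * X) + 2 * (B : ℝ) ^ 2 ≤ (72 * Real.exp 2 + 32) * (K + X) := by
      have he := Real.exp_pos 2
      nlinarith [mul_pos he (by linarith : (0 : ℝ) < K)]
    have h2 : 14400 * S ^ 2 * (72 * (Real.exp 2 * X) + 2 * (B : ℝ) ^ 2) ≤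
        14400 * S ^ 2 * ((72 * Real.exp 2 + 32) * (K + X)) :=
      mul_le_mul_of_nonneg_left h1 (by positivity)
    linarith
  calc ∑ κ ∈ FB K, ‖DP2 s a κ‖ ^ 2 ≤ 4 * W := hstep1
    _ ≤ 4 * (R * ∑ z ∈ s, ‖a z‖ ^ 2) := by linarith
    _ = (4 * R) * ∑ z ∈ s, ‖a z‖ ^ 2 := by ring
    _ ≤ _ := mul_le_mul_of_nonneg_right hRle hsum0

end Pool.Agent.N277.MS
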