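import Pool.Agent.N277.MS.LS
import Pool.Agent.H376R2.MR.Smoo

/-!
# Project MS (helper912), MS5/MS6: the moments (helper277)

After `H376R2/MR/Mom.lean`, `H376R2/MR/Smoo.lean` and `W669/GA/Mom.lean`.
-/

set_option autoImplicit false

namespace Pool.Agent.N277.MS

open Finset Pool.Agent.N912.MS
open Pool.Agent.H376R2.MR (ch w FK cell ge smoo_ge_le smoo_sigma_cell smoo_lcm_sum smoo_prod_dvd
  mm_le mm)
open Pool.Agent.H970R2.X (cellP P1)
open Pool.Agent.W78.GA (Qd nm ball win ang ps bg tc nm_eq_norm_sq norm_tc mem_win mem_ball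
  tc_ne_zero one_le_nm nm_mul nm_one nm_pow nm_eq_zero nm_pos nm_posR mul_star_self' ps_mul
  nm_cast tc_mul)

/-! ### the large sieve over long windows -/

lemma lsw (hLS : S_LS2) : ∃ C : ℝ, 0 < C ∧ ∀ (M₀ : ℝ) (L K : ℕ) (s : Finset Gi) (a : Gi → ℂ),
    1 ≤ M₀ → 1 ≤ K → (K : ℝ) ≤ Real.exp 1 * M₀ →
    (∀ z ∈ s, M₀ ≤ (nm z : ℝ) ∧ (nm z : ℝ) ≤ M₀ * Real.exp L) →
    ∑ κ ∈ FB K, ‖DP2 s a κ‖ ^ 2 ≤ C * (L + 1) * ∑ z ∈ s, (nm z : ℝ) * ‖a z‖ ^ 2 := by
  obtain ⟨C, hC, hls⟩ := hLS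
  have he := Real.exp_pos 1
  refine ⟨C * (Real.exp 1 + 1), by positivity, ?_⟩
  intro M₀ L K s a hM hK hKM hs
  have hM0 : 0 < M₀ := by linarith
  obtain ⟨ix, hix⟩ : ∃ ix : Gi → ℕ, ∀ z, ix z = ⌊Real.log (nm z) - Real.log M₀⌋₊ :=
    ⟨_, fun _ => rfl⟩
  have hfac : ∀ z ∈ s, ix z ∈ range (L + 1) ∧ M₀ * Real.exp (ix z) ≤ nm z ∧
      (nm z : ℝ) ≤ Real.exp 1 * (M₀ * Real.exp (ix z)) := by
    intro z hz
    obtain ⟨h1, h2⟩ := hs z hz
    have h3 : (0 : ℝ) < nm z := by linarith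
    have h4 := Real.log_le_log hM0 h1
    have h5 := Real.log_le_log h3 h2
    rw [Real.log_mul hM0.ne' (Real.exp_pos _).ne', Real.log_exp] at h5
    have h6 : (0 : ℝ) ≤ Real.log (nm z) - Real.log M₀ := by linarith
    have h7 := Nat.floor_le h6
    have h8 := Nat.lt_floor_add_one (Real.log (nm z) - Real.log M₀)
    rw [← hix] at h7 h8
    refine ⟨?_, ?_, ?_⟩
    · rw [mem_range, Nat.lt_succ_iff]
      have : (ix z : ℝ) ≤ L := by linarith
      exact_mod_cast this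
    · rw [← Real.log_le_log_iff (by positivity) h3, Real.log_mul hM0.ne' (Real.exp_pos _).ne',
        Real.log_exp]
      linarith
    · rw [← Real.log_le_log_iff h3 (by positivity), Real.log_mul he.ne' (by positivity),
        Real.log_mul hM0.ne' (Real.exp_pos _).ne', Real.log_exp, Real.log_exp]
      linarith
  have hsplit : ∀ κ, DP2 s a κ = ∑ i ∈ range (L + 1), DP2 (s.filter (fun z => ix z = i)) a κ := by
    intro κ
    unfold DP2
    rw [sum_fiberwise_of_maps_to fun z hz => (hfac z hz).1]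
  have hpiece : ∀ i ∈ range (L + 1), ∑ κ ∈ FB K, ‖DP2 (s.filter (fun z => ix z = i)) a κ‖ ^ 2 ≤
      C * (Real.exp 1 + 1) * ∑ z ∈ s.filter (fun z => ix z = i), (nm z : ℝ) * ‖a z‖ ^ 2 := by
    intro i _
    have hX : 1 ≤ M₀ * Real.exp i := by
      have h1 : 1 ≤ Real.exp (i : ℝ) := Real.one_le_exp (Nat.cast_nonneg i)
      nlinarith
    have h0 := hls (M₀ * Real.exp i) K (s.filter (fun z => ix z = i)) a hX hK (by
      intro z hz
      rw [mem_filter] at hz
      obtain ⟨hz1, hz2⟩ := hz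
      obtain ⟨g1, g2, g3⟩ := hfac z hz1
      rw [hz2] at g2 g3
      rw [mem_win hD]
      have g4 : (1 : ℝ) ≤ nm z := by linarith [(hs z hz1).1]
      refine ⟨by exact_mod_cast g4, ?_, ?_⟩
      · refine le_trans ?_ g2
        apply div_le_self (by positivity)
        exact Real.one_le_exp (by norm_num)
      · refine g3.trans ?_
        apply mul_le_mul_of_nonneg_right _ (by positivity)
        exact Real.exp_le_exp.2 (by norm_num))
    refine h0.trans ?_
    have h1 : C * (K + M₀ * Real.exp i) ≤ C * (Real.exp 1 + 1) * (M₀ * Real.exp i) := by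
      have h2 : (K : ℝ) ≤ Real.exp 1 * (M₀ * Real.exp i) := by
        refine hKM.trans ?_
        apply mul_le_mul_of_nonneg_left _ he.le
        have h1 : 1 ≤ Real.exp (i : ℝ) := Real.one_le_exp (Nat.cast_nonneg i)
        nlinarith
      nlinarith
    calc C * (K + M₀ * Real.exp i) * ∑ z ∈ s.filter (fun z => ix z = i), ‖a z‖ ^ 2
        ≤ C * (Real.exp 1 + 1) * (M₀ * Real.exp i) *
          ∑ z ∈ s.filter (fun z => ix z = i), ‖a z‖ ^ 2 :=
          mul_le_mul_of_nonneg_right h1 (sum_nonneg fun _ _ => by positivity)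
      _ = C * (Real.exp 1 + 1) *
          ∑ z ∈ s.filter (fun z => ix z = i), (M₀ * Real.exp i) * ‖a z‖ ^ 2 := by
          rw [← mul_sum]
          ring
      _ ≤ _ := by
          apply mul_le_mul_of_nonneg_left _ (by positivity)
          apply sum_le_sum
          intro z hz
          rw [mem_filter] at hz
          have g2 := (hfac z hz.1).2.1
          rw [hz.2] at g2
          exact mul_le_mul_of_nonneg_right g2 (by positivity)
  calc ∑ κ ∈ FB K, ‖DP2 s a κ‖ ^ 2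
      ≤ ∑ κ ∈ FB K, ((L : ℝ) + 1) *
        ∑ i ∈ range (L + 1), ‖DP2 (s.filter (fun z => ix z = i)) a κ‖ ^ 2 := by
        apply sum_le_sum
        intro κ _
        rw [hsplit]
        have h1 := pow_le_pow_left₀ (norm_nonneg _) (norm_sum_le (range (L + 1))
          (fun i => DP2 (s.filter (fun z => ix z = i)) a κ)) 2
        refine h1.trans ?_
        have h2 := sq_sum_le_card_mul_sum_sq (s := range (L + 1))
          (f := fun i => ‖DP2 (s.filter (fun z => ix z = i)) a κ‖)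
        rw [card_range] at h2
        push_cast at h2
        exact h2
    _ = ((L : ℝ) + 1) * ∑ i ∈ range (L + 1),
        ∑ κ ∈ FB K, ‖DP2 (s.filter (fun z => ix z = i)) a κ‖ ^ 2 := by
        rw [← mul_sum, sum_comm]
    _ ≤ ((L : ℝ) + 1) * ∑ i ∈ range (L + 1), C * (Real.exp 1 + 1) *
        ∑ z ∈ s.filter (fun z => ix z = i), (nm z : ℝ) * ‖a z‖ ^ 2 := by
        apply mul_le_mul_of_nonneg_left _ (by positivity)
        exact sum_le_sum hpiece
    _ = C * (Real.exp 1 + 1) * (L + 1) * ∑ z ∈ s, (nm z : ℝ) * ‖a z‖ ^ 2 := by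
        rw [← mul_sum, sum_fiberwise_of_maps_to fun z hz => (hfac z hz).1]
        ring

/-! ### sums of reciprocal norms -/

lemma card_nm (T : Finset Gi) (Y : ℝ) (hY : 0 ≤ Y) (h : ∀ z ∈ T, (nm z : ℝ) ≤ Y) :
    (T.card : ℝ) ≤ 8 * Y + 2 := by
  have h1 := card_disc T 0 (Real.sqrt Y) (Real.sqrt_nonneg _) (by
    intro z hz
    have h0 : tc (0 : Gi) = 0 := by
      apply Complex.ext
      · rw [tc_re']
        simp
      · rw [tc_im']
        simp
    rw [h0, sub_zero, norm_tc hD]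
    exact Real.sqrt_le_sqrt (h z hz))
  rwa [Real.sq_sqrt hY] at h1

lemma inv_sum (x : ℝ) (hx : 0 < x) (L : ℕ) (S : Finset Gi)
    (hS : ∀ z ∈ S, z ≠ 0 ∧ x ≤ (nm z : ℝ) ∧ (nm z : ℝ) ≤ x * Real.exp L) :
    ∑ z ∈ S, 1 / (nm z : ℝ) ≤ 10 * Real.exp 1 * (L + 1) := by
  have he := Real.exp_pos 1
  obtain ⟨ix, hix⟩ : ∃ ix : Gi → ℕ, ∀ z, ix z = ⌊Real.log (nm z) - Real.log x⌋₊ :=
    ⟨_, fun _ => rfl⟩
  have hfac : ∀ z ∈ S, ix z ∈ range (L + 1) ∧ x * Real.exp (ix z) ≤ nm z ∧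
      (nm z : ℝ) ≤ Real.exp 1 * (x * Real.exp (ix z)) := by
    intro z hz
    obtain ⟨h0, h1, h2⟩ := hS z hz
    have h3 : (0 : ℝ) < nm z := nm_posR hD h0
    have h4 := Real.log_le_log hx h1
    have h5 := Real.log_le_log h3 h2
    rw [Real.log_mul hx.ne' (Real.exp_pos _).ne', Real.log_exp] at h5
    have h6 : (0 : ℝ) ≤ Real.log (nm z) - Real.log x := by linarith
    have h7 := Nat.floor_le h6
    have h8 := Nat.lt_floor_add_one (Real.log (nm z) - Real.log x)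
    rw [← hix] at h7 h8
    refine ⟨?_, ?_, ?_⟩
    · rw [mem_range, Nat.lt_succ_iff]
      have : (ix z : ℝ) ≤ L := by linarith
      exact_mod_cast this
    · rw [← Real.log_le_log_iff (by positivity) h3, Real.log_mul hx.ne' (Real.exp_pos _).ne',
        Real.log_exp]
      linarith
    · rw [← Real.log_le_log_iff h3 (by positivity), Real.log_mul he.ne' (by positivity),
        Real.log_mul hx.ne' (Real.exp_pos _).ne', Real.log_exp, Real.log_exp]
      linarith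
  rw [← sum_fiberwise_of_maps_to fun z hz => (hfac z hz).1]
  have hpiece : ∀ i ∈ range (L + 1), ∑ z ∈ S.filter (fun z => ix z = i), 1 / (nm z : ℝ) ≤
      10 * Real.exp 1 := by
    intro i _
    rcases (S.filter (fun z => ix z = i)).eq_empty_or_nonempty with h0 | ⟨z0, hz0⟩
    · rw [h0, sum_empty]
      positivity
    · have hY : 1 ≤ Real.exp 1 * (x * Real.exp i) := by
        rw [mem_filter] at hz0
        have g1 := (hfac z0 hz0.1).2.2
        rw [hz0.2] at g1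
        have g2 : (1 : ℝ) ≤ nm z0 := by exact_mod_cast nm_pos hD (hS z0 hz0.1).1
        linarith
      have hcard := card_nm (S.filter (fun z => ix z = i)) (Real.exp 1 * (x * Real.exp i))
        (by positivity) (by
          intro z hz
          rw [mem_filter] at hz
          have g1 := (hfac z hz.1).2.2
          rwa [hz.2] at g1)
      have hpos : 0 < x * Real.exp (i : ℝ) := by positivity
      calc ∑ z ∈ S.filter (fun z => ix z = i), 1 / (nm z : ℝ)
          ≤ ∑ z ∈ S.filter (fun z => ix z = i), 1 / (x * Real.exp (i : ℝ)) := by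
            apply sum_le_sum
            intro z hz
            rw [mem_filter] at hz
            have g1 := (hfac z hz.1).2.1
            rw [hz.2] at g1
            exact one_div_le_one_div_of_le hpos g1
        _ = ((S.filter (fun z => ix z = i)).card : ℝ) / (x * Real.exp (i : ℝ)) := by
            rw [sum_const, nsmul_eq_mul, mul_one_div]
        _ ≤ (10 * (Real.exp 1 * (x * Real.exp (i : ℝ)))) / (x * Real.exp (i : ℝ)) := by
            apply div_le_div_of_nonneg_right _ hpos.le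
            linarith
        _ = 10 * Real.exp 1 := by
            field_simp
  calc _ ≤ ∑ _i ∈ range (L + 1), 10 * Real.exp 1 := sum_le_sum hpiece
    _ = _ := by
      rw [sum_const, card_range, nsmul_eq_mul]
      push_cast
      ring

open Classical in
lemma mult_sum (x : ℝ) (hx : 0 < x) (L : ℕ) (S : Finset Gi)
    (hS : ∀ z ∈ S, z ≠ 0 ∧ x ≤ (nm z : ℝ) ∧ (nm z : ℝ) ≤ x * Real.exp L) (g : Gi) (hg : g ≠ 0) :
    ∑ z ∈ S.filter (fun z => g ∣ z), 1 / (nm z : ℝ) ≤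
      1 / (nm g : ℝ) * (10 * Real.exp 1 * (L + 1)) := by
  have hg0 := nm_posR hD hg
  have hex : ∀ z : Gi, ∃ u, g ∣ z → z = g * u := by
    intro z
    by_cases h : g ∣ z
    · obtain ⟨u, hu⟩ := h
      exact ⟨u, fun _ => hu⟩
    · exact ⟨0, fun h' => absurd h' h⟩
  choose u hu using hex
  have hinj : Set.InjOn u ((S.filter (fun z => g ∣ z) : Finset Gi) : Set Gi) := by
    intro a ha b hb hab
    rw [mem_coe, mem_filter] at ha hb
    rw [hu a ha.2, hu b hb.2, hab]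
  have h1 : ∑ z ∈ S.filter (fun z => g ∣ z), 1 / (nm z : ℝ) =
      1 / (nm g : ℝ) * ∑ v ∈ (S.filter (fun z => g ∣ z)).image u, 1 / (nm v : ℝ) := by
    rw [sum_image hinj, mul_sum]
    apply sum_congr rfl
    intro z hz
    rw [mem_filter] at hz
    conv_lhs => rw [hu z hz.2, nm_mul]
    push_cast
    rw [one_div_mul_one_div]
  rw [h1]
  apply mul_le_mul_of_nonneg_left _ (by positivity)
  apply inv_sum (x / nm g) (by positivity)
  intro v hv
  obtain ⟨z, hz, rfl⟩ := mem_image.1 hv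
  rw [mem_filter] at hz
  obtain ⟨g1, g2, g3⟩ := hS z hz.1
  have g4 : (nm z : ℝ) = nm g * nm (u z) := by
    conv_lhs => rw [hu z hz.2, nm_mul]
    push_cast
    rfl
  refine ⟨?_, ?_, ?_⟩
  · intro h0
    apply g1
    rw [hu z hz.2, h0, mul_zero]
  · rw [div_le_iff₀ hg0]
    linarith
  · rw [div_mul_eq_mul_div, le_div_iff₀ hg0]
    linarith

/-! ### the elements `gg n` -/

/-- the monoid homomorphism `nm` -/
noncomputable def nmH : Gi →* ℕ where
  toFun := nm
  map_one' := nm_one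
  map_mul' := nm_mul

/-- all prime factors are `1` modulo `4` -/
def Gd (n : ℕ) : Prop := n ≠ 0 ∧ ∀ p : ℕ, p.Prime → p ∣ n → p % 4 = 1

lemma nm_gq {p : ℕ} (hp : p.Prime) (h4 : p % 4 = 1) : nm (gq p) = p := by
  have hex : ∃ z : Gi, nm z = p := by
    have : Fact p.Prime := ⟨hp⟩
    obtain ⟨a, b, hab⟩ := Nat.Prime.sq_add_sq (p := p) (by omega)
    refine ⟨⟨a, b⟩, ?_⟩
    unfold nm
    have h1 : ((a : ℤ) ^ 2 + 0 * a * b + 1 * (b : ℤ) ^ 2) = ((a ^ 2 + b ^ 2 : ℕ) : ℤ) := by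
      push_cast
      ring
    simp only [h1, Int.natAbs_natCast]
    exact hab
  unfold gq
  rw [dif_pos hex]
  exact hex.choose_spec

/-- the element of norm `n` -/
noncomputable def gg (n : ℕ) : Gi := n.factorization.prod fun p k => gq p ^ k

lemma gg_one : gg 1 = 1 := by
  unfold gg
  rw [Nat.factorization_one, Finsupp.prod_zero_index]

lemma gg_mul {a b : ℕ} (ha : a ≠ 0) (hb : b ≠ 0) : gg (a * b) = gg a * gg b := by
  unfold gg
  rw [Nat.factorization_mul ha hb]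
  exact Finsupp.prod_add_index' (fun p => pow_zero _) (fun p i j => pow_add _ _ _)

lemma gg_prime {p : ℕ} (hp : p.Prime) : gg p = gq p := by
  unfold gg
  rw [hp.factorization]
  exact (Finsupp.prod_single_index (h := fun p k => gq p ^ k) (pow_zero _)).trans (pow_one _)

lemma nm_gg {n : ℕ} (hn : Gd n) : nm (gg n) = n := by
  have h1 : nm (gg n) = n.factorization.prod fun p k => p ^ k := by
    show nmH (gg n) = _
    unfold gg Finsupp.prod
    rw [map_prod]
    refine prod_congr rfl fun p hp => ?_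
    rw [Nat.support_factorization, Nat.mem_primeFactors] at hp
    rw [map_pow]
    show nm (gq p) ^ _ = _
    rw [nm_gq hp.1 (hn.2 p hp.1 hp.2.1)]
  rw [h1]
  exact Nat.prod_factorization_pow_eq_self hn.1

lemma gg_ne {n : ℕ} (hn : Gd n) : gg n ≠ 0 := by
  intro h
  have h1 := nm_gg hn
  rw [h, (nm_eq_zero hD).2 rfl] at h1
  exact hn.1 h1.symm

lemma gd_lcm {a b : ℕ} (ha : Gd a) (hb : Gd b) : Gd (Nat.lcm a b) := by
  refine ⟨Nat.lcm_ne_zero ha.1 hb.1, fun p hp h => ?_⟩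
  have h1 : p ∣ a * b := h.trans (Nat.lcm_dvd_mul a b)
  rcases (Nat.Prime.dvd_mul hp).1 h1 with h2 | h2
  · exact ha.2 p hp h2
  · exact hb.2 p hp h2

lemma gq_coprime {p q : ℕ} (hp : p.Prime) (hq : q.Prime) (hp4 : p % 4 = 1) (hq4 : q % 4 = 1)
    (hpq : p ≠ q) : IsCoprime (gq p) (gq q) := by
  have h1 : IsCoprime (p : ℤ) (q : ℤ) :=
    Nat.isCoprime_iff_coprime.2 ((Nat.coprime_primes hp hq).2 hpq)
  obtain ⟨u, v, huv⟩ := h1
  refine ⟨(u : Gi) * star (gq p), (v : Gi) * star (gq q), ?_⟩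
  have e1 := mul_star_self' hD (gq p)
  have e2 := mul_star_self' hD (gq q)
  rw [nm_gq hp hp4] at e1
  rw [nm_gq hq hq4] at e2
  calc (u : Gi) * star (gq p) * gq p + (v : Gi) * star (gq q) * gq q
      = (u : Gi) * (gq p * star (gq p)) + (v : Gi) * (gq q * star (gq q)) := by ring
    _ = ((u * (p : ℤ) + v * (q : ℤ) : ℤ) : Gi) := by
        rw [e1, e2]
        push_cast
        rfl
    _ = 1 := by
        rw [huv]
        exact Int.cast_one

lemma gg_pow_dvd {n : ℕ} (p : ℕ) : gq p ^ n.factorization p ∣ gg n := by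
  by_cases h : p ∈ n.factorization.support
  · unfold gg Finsupp.prod
    exact dvd_prod_of_mem (fun p => gq p ^ n.factorization p) h
  · rw [Finsupp.notMem_support_iff] at h
    rw [h, pow_zero]
    exact one_dvd _

lemma gg_lcm_dvd {a b : ℕ} (ha : Gd a) (hb : Gd b) {z : Gi} (h1 : gg a ∣ z) (h2 : gg b ∣ z) :
    gg (Nat.lcm a b) ∣ z := by
  have hl := gd_lcm ha hb
  have h3 : gg (Nat.lcm a b) = ∏ p ∈ (Nat.lcm a b).factorization.support,
    gq p ^ (Nat.lcm a b).factorization p := rfl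
  rw [h3]
  apply Finset.prod_dvd_of_coprime
  · intro p hp q hq hpq
    rw [mem_coe, Nat.support_factorization, Nat.mem_primeFactors] at hp hq
    exact (gq_coprime hp.1 hq.1 (hl.2 p hp.1 hp.2.1) (hl.2 q hq.1 hq.2.1) hpq).pow
  · intro p _
    rw [Nat.factorization_lcm ha.1 hb.1, Finsupp.sup_apply]
    rcases le_total (a.factorization p) (b.factorization p) with h | h
    · rw [sup_eq_right.2 h]
      exact (gg_pow_dvd p).trans h2
    · rw [sup_eq_left.2 h]
      exact (gg_pow_dvd p).trans h1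

/-! ### the cells -/

/-- the cell -/
noncomputable abbrev cc (H r : ℕ) : Finset ℕ := cellP (P1 4) H r

lemma mem_cc {H r p : ℕ} (hp : p ∈ cc H r) : p ∈ cell H r ∧ p.Prime ∧ p % 4 = 1 ∧
    (r : ℝ) / H ≤ Real.log p ∧ Real.log p ≤ ((r : ℝ) + 1) / H := by
  classical
  unfold cc cellP at hp
  rw [mem_filter] at hp
  have h1 := hp.1
  unfold cell at h1
  rw [mem_filter] at h1
  exact ⟨hp.1, h1.2.1, hp.2, h1.2.2.1, h1.2.2.2.le⟩

/-- the products of `ℓ` elements of the cell -/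
noncomputable def AA (H r ℓ : ℕ) : Finset ℕ :=
  (Fintype.piFinset fun _ : Fin ℓ => cc H r).image fun p => ∏ i, p i

lemma mem_AA {H r ℓ n : ℕ} (hn : n ∈ AA H r ℓ) : Gd n ∧
    n ∣ (∏ p ∈ cell H r, p) ^ ℓ ∧ Real.exp ((r : ℝ) * ℓ / H) ≤ n ∧
    (n : ℝ) ≤ Real.exp (((r : ℝ) + 1) * ℓ / H) := by
  unfold AA at hn
  obtain ⟨p, hp, rfl⟩ := mem_image.1 hn
  rw [Fintype.mem_piFinset] at hp
  have hpos : 0 < ∏ i, p i := prod_pos fun i _ => (mem_cc (hp i)).2.1.pos
  have hposR : (0 : ℝ) < ((∏ i, p i : ℕ) : ℝ) := by exact_mod_cast hpos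
  have h1 : Real.log ((∏ i, p i : ℕ) : ℝ) = ∑ i, Real.log (p i : ℝ) := by
    push_cast
    rw [Real.log_prod]
    intro i _
    have := (mem_cc (hp i)).2.1.pos
    positivity
  refine ⟨⟨hpos.ne', ?_⟩, ?_, ?_, ?_⟩
  · intro q hq hqd
    rw [Prime.dvd_finsetProd_iff hq.prime] at hqd
    obtain ⟨i, _, hi⟩ := hqd
    rw [(Nat.prime_dvd_prime_iff_eq hq (mem_cc (hp i)).2.1).1 hi]
    exact (mem_cc (hp i)).2.2.1
  · exact smoo_prod_dvd _ _ fun i => (mem_cc (hp i)).1
  · rw [← Real.le_log_iff_exp_le hposR, h1]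
    have : ∑ _i : Fin ℓ, ((r : ℝ) / H) ≤ ∑ i, Real.log (p i : ℝ) :=
      Finset.sum_le_sum fun i _ => (mem_cc (hp i)).2.2.2.1
    rw [Finset.sum_const, Finset.card_univ, Fintype.card_fin, nsmul_eq_mul] at this
    calc (r : ℝ) * ℓ / H = ℓ * (r / H) := by ring
      _ ≤ _ := this
  · rw [← Real.log_le_iff_le_exp hposR, h1]
    have : ∑ i, Real.log (p i : ℝ) ≤ ∑ _i : Fin ℓ, (((r : ℝ) + 1) / H) :=
      Finset.sum_le_sum fun i _ => (mem_cc (hp i)).2.2.2.2
    rw [Finset.sum_const, Finset.card_univ, Fintype.card_fin, nsmul_eq_mul] at this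
    calc _ ≤ _ := this
      _ = ((r : ℝ) + 1) * ℓ / H := by ring

/-! ### multiplicativity -/

lemma f_one {f : Gi → ℝ} (hf : CMR f) : f 1 = 1 := by
  have h1 : (⟨0, 1⟩ : Gi) ≠ 0 := by
    intro h
    have := congrArg QuadraticAlgebra.im h
    simp at this
  have h2 := hf.mul ⟨0, 1⟩ 1 h1 one_ne_zero
  rw [mul_one, hf.unit, one_mul] at h2
  exact h2.symm

lemma chi_one (κ : ℤ × ℤ) : chi κ 1 = 1 := by
  have h1 : ps κ.1 (1 : Gi) = 1 := by
    have := Pool.Agent.W78.GA.ps_natCast (t := 0) (c := 1) (n := 1) one_pos κ.1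
    simpa using this
  unfold chi
  rw [h1, nm_one]
  unfold ch
  simp

lemma chi_mul (κ : ℤ × ℤ) {z u : Gi} (hz : z ≠ 0) (hu : u ≠ 0) :
    chi κ (z * u) = chi κ z * chi κ u := by
  have h1 := nm_posR hD hz
  have h2 := nm_posR hD hu
  unfold chi
  rw [ps_mul hD, nm_mul]
  push_cast
  rw [Real.log_mul h1.ne' h2.ne']
  have h3 : ch κ.2 (Real.log (nm z) + Real.log (nm u)) =
      ch κ.2 (Real.log (nm z)) * ch κ.2 (Real.log (nm u)) := by
    unfold ch
    rw [← Complex.exp_add]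
    congr 1
    push_cast
    ring
  rw [h3]
  ring

/-- the product `f chi` -/
noncomputable def fc (f : Gi → ℝ) (κ : ℤ × ℤ) (z : Gi) : ℂ := (f z : ℂ) * chi κ z

lemma fc_one {f : Gi → ℝ} (hf : CMR f) (κ : ℤ × ℤ) : fc f κ 1 = 1 := by
  unfold fc
  rw [f_one hf, chi_one]
  simp

lemma fc_mul {f : Gi → ℝ} (hf : CMR f) (κ : ℤ × ℤ) {z u : Gi} (hz : z ≠ 0) (hu : u ≠ 0) :
    fc f κ (z * u) = fc f κ z * fc f κ u := by
  unfold fc
  rw [hf.mul z u hz hu, chi_mul κ hz hu]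
  push_cast
  ring

lemma gd_prime {p : ℕ} (hp : p.Prime) (h4 : p % 4 = 1) : Gd p :=
  ⟨hp.ne_zero, fun q hq h => by rw [(Nat.prime_dvd_prime_iff_eq hq hp).1 h]; exact h4⟩

lemma gd_mul {a b : ℕ} (ha : Gd a) (hb : Gd b) : Gd (a * b) := by
  refine ⟨mul_ne_zero ha.1 hb.1, fun p hp h => ?_⟩
  rcases (Nat.Prime.dvd_mul hp).1 h with h2 | h2
  · exact ha.2 p hp h2
  · exact hb.2 p hp h2

lemma tuple_prod {f : Gi → ℝ} (hf : CMR f) (κ : ℤ × ℤ) {H r ℓ : ℕ} (p : Fin ℓ → ℕ)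
    (hp : ∀ i, p i ∈ cc H r) (s : Finset (Fin ℓ)) :
    Gd (∏ i ∈ s, p i) ∧ ∏ i ∈ s, fc f κ (gq (p i)) = fc f κ (gg (∏ i ∈ s, p i)) := by
  classical
  induction s using Finset.induction_on with
  | empty =>
    rw [prod_empty, prod_empty, gg_one, fc_one hf]
    refine ⟨⟨one_ne_zero, fun p hp h => ?_⟩, rfl⟩
    exact absurd (Nat.dvd_one.1 h) hp.one_lt.ne'
  | insert a s ha ih =>
    have h1 := mem_cc (hp a)
    have h2 := gd_prime h1.2.1 h1.2.2.1
    rw [prod_insert ha, prod_insert ha, gg_mul h2.1 ih.1.1, ih.2,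
      fc_mul hf κ (gg_ne h2) (gg_ne ih.1), gg_prime h1.2.1]
    exact ⟨gd_mul h2 ih.1, rfl⟩

lemma P2_pow {f : Gi → ℝ} (hf : CMR f) (H r ℓ : ℕ) (κ : ℤ × ℤ) :
    P2 f H r κ ^ ℓ = (-1) ^ ℓ * ∑ n ∈ AA H r ℓ, (ge (cc H r) ℓ n : ℂ) * fc f κ (gg n) / (n : ℂ) := by
  unfold P2
  rw [neg_pow, Finset.sum_pow']
  congr 1
  have h1 : ∀ p ∈ Fintype.piFinset (fun _ : Fin ℓ => cc H r),
      ∏ i, ((f (gq (p i)) : ℂ) * chi κ (gq (p i)) / (p i : ℂ)) =
        fc f κ (gg (∏ i, p i)) / ((∏ i, p i : ℕ) : ℂ) := by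
    intro p hp
    rw [Fintype.mem_piFinset] at hp
    rw [Finset.prod_div_distrib, ← (tuple_prod hf κ p hp univ).2]
    push_cast
    rfl
  rw [sum_congr rfl h1, sum_comp (fun n : ℕ => fc f κ (gg n) / (n : ℂ))
    (fun p : Fin ℓ → ℕ => ∏ i, p i)]
  unfold AA
  refine sum_congr rfl fun n _ => ?_
  rw [nsmul_eq_mul, mul_div_assoc]
  rfl

/-! ### the window coefficients -/

lemma bg_ne' {Z : ℝ} (hZ : 0 < Z) {z : Gi} (h : bg Z z ≠ 0) :
    Z / Real.exp 1 ≤ (nm z : ℝ) ∧ (nm z : ℝ) ≤ Real.exp 1 * Z := by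
  unfold bg at h
  have h1 : (nm z : ℝ) ≠ 0 := by
    intro h0
    apply h
    rw [h0, div_zero]
  have h2 : w (Real.log (nm z) - Real.log Z) ≠ 0 := by
    intro h0
    apply h
    rw [h0, zero_div]
  have h3 : |Real.log (nm z) - Real.log Z| ≤ 1 := by
    by_contra hc
    push Not at hc
    apply h2
    unfold w
    rw [max_eq_left]
    linarith
  have hpos : (0 : ℝ) < nm z := lt_of_le_of_ne (Nat.cast_nonneg _) (Ne.symm h1)
  rw [abs_le] at h3
  have he := Real.exp_pos 1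
  refine ⟨?_, ?_⟩
  · rw [← Real.log_le_log_iff (by positivity) hpos, Real.log_div hZ.ne' he.ne', Real.log_exp]
    linarith [h3.1]
  · rw [← Real.log_le_log_iff hpos (by positivity), Real.log_mul he.ne' hZ.ne', Real.log_exp]
    linarith [h3.2]

lemma coef_le {f : Gi → ℝ} (hf : CMR f) (Z : ℝ) (z : Gi) :
    ‖(f z : ℂ) * (bg Z z : ℂ)‖ ≤ 1 / nm z := by
  have h2 : 0 ≤ bg Z z := by
    unfold bg w
    positivity
  have h3 : bg Z z ≤ 1 / nm z := by
    unfold bg
    have h4 : w (Real.log (nm z) - Real.log Z) ≤ 1 := by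
      unfold w
      apply max_le zero_le_one
      have := abs_nonneg (Real.log (nm z) - Real.log Z)
      linarith
    gcongr
  rw [norm_mul, Complex.norm_real, Complex.norm_real, Real.norm_of_nonneg h2, Real.norm_eq_abs]
  calc |f z| * bg Z z ≤ 1 * bg Z z := mul_le_mul_of_nonneg_right (hf.bd z) h2
    _ = bg Z z := one_mul _
    _ ≤ _ := h3

/-- the support -/
noncomputable def SG (Z : ℝ) : Finset Gi :=
  (ball 0 1 (Real.exp 1 * Z)).filter (fun z => bg Z z ≠ 0)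

lemma mem_SG {Z : ℝ} (hZ : 0 < Z) {z : Gi} (h : z ∈ SG Z) :
    z ≠ 0 ∧ Z / Real.exp 1 ≤ (nm z : ℝ) ∧ (nm z : ℝ) ≤ Real.exp 1 * Z := by
  unfold SG at h
  rw [mem_filter, mem_ball hD] at h
  exact ⟨(one_le_nm hD).1 h.1.1, bg_ne' hZ h.2⟩

lemma G2_filter (f : Gi → ℝ) (Z : ℝ) (κ : ℤ × ℤ) :
    G2 f Z κ = DP2 (SG Z) (fun z => (f z : ℂ) * (bg Z z : ℂ)) κ := by
  unfold G2 DP2 SG
  rw [Finset.sum_filter_of_ne]
  intro n _ hn h0
  apply hn
  show (f n : ℂ) * (bg Z n : ℂ) * chi κ n = 0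
  rw [h0]
  simp

end Pool.Agent.N277.MS
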