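import Pool.Agent.N277.MS.Mom

/-!
# Project MS (helper912), MS5/MS6: the moments, the theorem (helper277)
-/

set_option autoImplicit false

namespace Pool.Agent.N277.MS

open Finset Pool.Agent.N912.MS
open Pool.Agent.H376R2.MR (ch w FK cell ge smoo_ge_le smoo_sigma_cell smoo_lcm_sum smoo_prod_dvd
  mm_le mm)
open Pool.Agent.H970R2.X (cellP P1)
open Pool.Agent.W78.GA (Qd nm ball win ang ps bg tc mem_win mem_ball one_le_nm nm_mul nm_eq_zero
  nm_pos nm_posR)

open Classical in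
/-- number of products of `ℓ` elements of the cell dividing `z` -/
noncomputable def dl (H r ℓ : ℕ) (z : Gi) : ℕ := ((AA H r ℓ).filter (fun n => gg n ∣ z)).card

open Classical in
lemma dl_sq (H r ℓ : ℕ) (hH : 1 ≤ H) (x : ℝ) (hx : 0 < x) (L : ℕ) (S : Finset Gi)
    (hS : ∀ z ∈ S, z ≠ 0 ∧ x ≤ (nm z : ℝ) ∧ (nm z : ℝ) ≤ x * Real.exp L) :
    ∑ z ∈ S, (dl H r ℓ z : ℝ) ^ 2 / nm z ≤ Real.exp 4 ^ 3 * (10 * Real.exp 1 * (L + 1)) := by
  obtain ⟨A, hA⟩ : ∃ A, A = AA H r ℓ := ⟨_, rfl⟩
  have hmem : ∀ n ∈ A, Gd n ∧ n ∣ (∏ p ∈ cell H r, p) ^ ℓ := by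
    intro n hn
    rw [hA] at hn
    exact ⟨(mem_AA hn).1, (mem_AA hn).2.1⟩
  have hprime : ∀ p ∈ cell H r, p.Prime := by
    intro p hp
    unfold cell at hp
    rw [mem_filter] at hp
    exact hp.2.1
  have hN0 : (∏ p ∈ cell H r, p) ^ ℓ ≠ 0 :=
    pow_ne_zero _ (prod_ne_zero_iff.mpr (fun p hp => (hprime p hp).ne_zero))
  obtain ⟨W, hW⟩ : ∃ W : ℝ, W = 10 * Real.exp 1 * (L + 1) := ⟨_, rfl⟩
  have hW0 : 0 ≤ W := by
    rw [hW]
    positivity
  have hexp : ∀ z ∈ S, (dl H r ℓ z : ℝ) ^ 2 / nm z ≤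
      ∑ a ∈ A, ∑ b ∈ A, (if gg (Nat.lcm a b) ∣ z then 1 / (nm z : ℝ) else 0) := by
    intro z hz
    have hc : (dl H r ℓ z : ℝ) = ∑ a ∈ A, (if gg a ∣ z then (1 : ℝ) else 0) := by
      unfold dl
      rw [card_filter, hA]
      push_cast
      rfl
    rw [hc, pow_two, sum_mul_sum, sum_div]
    apply sum_le_sum
    intro a ha
    rw [sum_div]
    apply sum_le_sum
    intro b hb
    by_cases h1 : gg a ∣ z
    · by_cases h2 : gg b ∣ z
      · rw [if_pos h1, if_pos h2, if_pos (gg_lcm_dvd (hmem a ha).1 (hmem b hb).1 h1 h2), one_mul]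
      · rw [if_neg h2, mul_zero, zero_div]
        split_ifs
        · positivity
        · exact le_rfl
    · rw [if_neg h1, zero_mul, zero_div]
      split_ifs
      · positivity
      · exact le_rfl
  calc ∑ z ∈ S, (dl H r ℓ z : ℝ) ^ 2 / nm z
      ≤ ∑ z ∈ S, ∑ a ∈ A, ∑ b ∈ A, (if gg (Nat.lcm a b) ∣ z then 1 / (nm z : ℝ) else 0) :=
        sum_le_sum hexp
    _ = ∑ a ∈ A, ∑ b ∈ A, ∑ z ∈ S.filter (fun z => gg (Nat.lcm a b) ∣ z), 1 / (nm z : ℝ) := by
        rw [sum_comm]
        apply sum_congr rfl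
        intro a _
        rw [sum_comm]
        apply sum_congr rfl
        intro b _
        rw [sum_filter]
    _ ≤ ∑ a ∈ A, ∑ b ∈ A, 1 / ((Nat.lcm a b : ℕ) : ℝ) * W := by
        apply sum_le_sum
        intro a ha
        apply sum_le_sum
        intro b hb
        have hl := gd_lcm (hmem a ha).1 (hmem b hb).1
        have h1 := mult_sum x hx L S hS (gg (Nat.lcm a b)) (gg_ne hl)
        rw [nm_gg hl, ← hW] at h1
        exact h1
    _ = (∑ a ∈ A, ∑ b ∈ A, 1 / ((Nat.lcm a b : ℕ) : ℝ)) * W := by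
        simp only [sum_mul]
    _ ≤ Real.exp 4 ^ 3 * W := by
        apply mul_le_mul_of_nonneg_right _ hW0
        refine (smoo_lcm_sum _ hN0 A fun a ha => (hmem a ha).2).trans ?_
        apply pow_le_pow_left₀ (sum_nonneg fun _ _ => by positivity)
        refine (smoo_sigma_cell _ hprime ℓ).trans ?_
        apply Real.exp_le_exp.2
        have h2 := mm_le H r hH
        unfold mm at h2
        linarith
    _ = _ := by rw [hW]

open Classical in
lemma main_of (hLS : S_LS2) : ∃ C : ℝ, 0 < C ∧ ∀ (H r ℓ L K : ℕ) (M₀ : ℝ) (ι : Type)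
    (J : Finset ι) (φ : ι → Gi) (b : ι → ℂ), 1 ≤ H → 1 ≤ M₀ → 1 ≤ K →
    (K : ℝ) ≤ Real.exp 1 * M₀ →
    (∀ j ∈ J, M₀ ≤ (nm (φ j) : ℝ) ∧ (nm (φ j) : ℝ) ≤ M₀ * Real.exp L) →
    (∀ z, z ≠ 0 → ‖∑ j ∈ J.filter (fun j => φ j = z), b j‖ ≤
      (ℓ.factorial : ℝ) * dl H r ℓ z / nm z) →
    ∑ κ ∈ FB K, ‖∑ j ∈ J, b j * chi κ (φ j)‖ ^ 2 ≤
      C * ((L : ℝ) + 1) ^ 2 * (ℓ.factorial : ℝ) ^ 2 := by
  obtain ⟨C, hC, hls⟩ := lsw hLS
  refine ⟨C * (Real.exp 4 ^ 3 * (10 * Real.exp 1)), by positivity, ?_⟩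
  intro H r ℓ L K M₀ ι J φ b hH hM hK hKM hφ hb
  obtain ⟨a, ha⟩ : ∃ a : Gi → ℂ, ∀ z, a z = ∑ j ∈ J.filter (fun j => φ j = z), b j :=
    ⟨_, fun _ => rfl⟩
  have hs : ∀ z ∈ J.image φ, z ≠ 0 ∧ M₀ ≤ (nm z : ℝ) ∧ (nm z : ℝ) ≤ M₀ * Real.exp L := by
    intro z hz
    obtain ⟨j, hj, rfl⟩ := mem_image.1 hz
    refine ⟨?_, hφ j hj⟩
    intro h0
    have h1 := (hφ j hj).1
    rw [h0, (nm_eq_zero hD).2 rfl] at h1
    norm_num at h1
    linarith
  have hDP : ∀ κ, ∑ j ∈ J, b j * chi κ (φ j) = DP2 (J.image φ) a κ := by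
    intro κ
    unfold DP2
    rw [← sum_fiberwise_of_maps_to (g := φ) (t := J.image φ) fun j hj => mem_image_of_mem _ hj]
    apply sum_congr rfl
    intro z _
    rw [ha, sum_mul]
    apply sum_congr rfl
    intro j hj
    rw [(mem_filter.1 hj).2]
  simp only [hDP]
  have h1 := hls M₀ L K (J.image φ) a hM hK hKM fun z hz => (hs z hz).2
  refine h1.trans ?_
  have h2 : ∑ z ∈ J.image φ, (nm z : ℝ) * ‖a z‖ ^ 2 ≤
      (ℓ.factorial : ℝ) ^ 2 * (Real.exp 4 ^ 3 * (10 * Real.exp 1 * (L + 1))) := by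
    calc ∑ z ∈ J.image φ, (nm z : ℝ) * ‖a z‖ ^ 2
        ≤ ∑ z ∈ J.image φ, (ℓ.factorial : ℝ) ^ 2 * ((dl H r ℓ z : ℝ) ^ 2 / nm z) := by
          apply sum_le_sum
          intro z hz
          have h3 := hb z (hs z hz).1
          rw [← ha] at h3
          have h4 : (0 : ℝ) < nm z := by linarith [(hs z hz).2.1]
          calc (nm z : ℝ) * ‖a z‖ ^ 2
              ≤ (nm z : ℝ) * ((ℓ.factorial : ℝ) * dl H r ℓ z / nm z) ^ 2 := by
                gcongr
            _ = _ := by
                field_simp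
      _ = (ℓ.factorial : ℝ) ^ 2 * ∑ z ∈ J.image φ, (dl H r ℓ z : ℝ) ^ 2 / nm z := by
          rw [mul_sum]
      _ ≤ _ := by
          apply mul_le_mul_of_nonneg_left _ (by positivity)
          exact dl_sq H r ℓ hH M₀ (by linarith) L _ hs
  calc C * (L + 1) * ∑ z ∈ J.image φ, (nm z : ℝ) * ‖a z‖ ^ 2
      ≤ C * (L + 1) *
        ((ℓ.factorial : ℝ) ^ 2 * (Real.exp 4 ^ 3 * (10 * Real.exp 1 * (L + 1)))) := by
        apply mul_le_mul_of_nonneg_left h2 (by positivity)
    _ = _ := by ring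

lemma numer {C : ℝ} (hC : 0 < C) {L ℓ : ℕ} (hL : L ≤ ℓ + 2) :
    C * ((L : ℝ) + 1) ^ 2 * (ℓ.factorial : ℝ) ^ 2 ≤
      (max (9 * C) 4) ^ (ℓ + 1) * (ℓ.factorial : ℝ) ^ 8 := by
  have h1 : (ℓ : ℝ) + 1 ≤ 2 ^ ℓ := by
    have := Nat.lt_two_pow_self (n := ℓ)
    exact_mod_cast this
  have h2 : (L : ℝ) ≤ ℓ + 2 := by exact_mod_cast hL
  have h3 : (L : ℝ) + 1 ≤ 3 * 2 ^ ℓ := by
    have : (0 : ℝ) ≤ ℓ := Nat.cast_nonneg ℓ
    linarith
  have h4 : ((L : ℝ) + 1) ^ 2 ≤ 9 * 4 ^ ℓ := by
    calc ((L : ℝ) + 1) ^ 2 ≤ (3 * 2 ^ ℓ) ^ 2 := by gcongr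
      _ = 9 * 4 ^ ℓ := by
        rw [mul_pow, ← pow_mul, mul_comm ℓ 2, pow_mul]
        norm_num
  have h5 : (4 : ℝ) ^ ℓ ≤ (max (9 * C) 4) ^ ℓ :=
    pow_le_pow_left₀ (by norm_num) (le_max_right _ _) ℓ
  have h6 : 9 * C ≤ max (9 * C) 4 := le_max_left _ _
  have h7 : (1 : ℝ) ≤ (ℓ.factorial : ℝ) := by exact_mod_cast Nat.factorial_pos ℓ
  have h8 : (ℓ.factorial : ℝ) ^ 2 ≤ (ℓ.factorial : ℝ) ^ 8 := pow_le_pow_right₀ h7 (by norm_num)
  calc C * ((L : ℝ) + 1) ^ 2 * (ℓ.factorial : ℝ) ^ 2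
      ≤ C * (9 * 4 ^ ℓ) * (ℓ.factorial : ℝ) ^ 8 := by gcongr
    _ = (9 * C) * 4 ^ ℓ * (ℓ.factorial : ℝ) ^ 8 := by ring
    _ ≤ max (9 * C) 4 * (max (9 * C) 4) ^ ℓ * (ℓ.factorial : ℝ) ^ 8 := by gcongr
    _ = _ := by ring

/-- MS5/MS6 -/
theorem mom2 (hLS : S_LS2) : S_MOM2 := by
  classical
  intro f hf
  have he := Real.exp_pos 1
  have he3 : Real.exp 1 < 3 := Real.exp_one_lt_three
  have he1 : 1 ≤ Real.exp 1 := Real.one_le_exp zero_le_one
  refine ⟨?_, ?_, ?_⟩
  · -- the mean values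
    obtain ⟨C, hC, hls⟩ := hLS
    refine ⟨C * (10 * Real.exp 1 ^ 3), by positivity, ?_⟩
    intro K Z hZ hK
    have hZ0 : 0 < Z := by linarith
    have hsub : SG Z ⊆ win 0 1 Z := by
      intro z hz
      obtain ⟨h1, h2, h3⟩ := mem_SG hZ0 hz
      rw [mem_win hD]
      refine ⟨(one_le_nm hD).2 h1, ?_, ?_⟩
      · refine le_trans ?_ h2
        apply div_le_div_of_nonneg_left hZ0.le he
        exact Real.exp_le_exp.2 (by norm_num)
      · refine h3.trans ?_
        apply mul_le_mul_of_nonneg_right _ hZ0.le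
        exact Real.exp_le_exp.2 (by norm_num)
    have h1 := hls Z K (SG Z) (fun z => (f z : ℂ) * (bg Z z : ℂ)) (by linarith) hK hsub
    simp only [G2_filter]
    refine h1.trans ?_
    have hcard := card_nm (SG Z) (Real.exp 1 * Z) (by positivity) fun z hz => (mem_SG hZ0 hz).2.2
    have h2 : ∑ z ∈ SG Z, ‖(f z : ℂ) * (bg Z z : ℂ)‖ ^ 2 ≤
        (10 * (Real.exp 1 * Z)) * (Real.exp 1 / Z) ^ 2 := by
      calc ∑ z ∈ SG Z, ‖(f z : ℂ) * (bg Z z : ℂ)‖ ^ 2
          ≤ ∑ _z ∈ SG Z, (Real.exp 1 / Z) ^ 2 := by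
            apply sum_le_sum
            intro z hz
            obtain ⟨g1, g2, g3⟩ := mem_SG hZ0 hz
            have g4 : (0 : ℝ) < nm z := nm_posR hD g1
            have g5 : 1 / (nm z : ℝ) ≤ Real.exp 1 / Z := by
              rw [div_le_div_iff₀ g4 hZ0, one_mul]
              rw [div_le_iff₀ he] at g2
              linarith
            exact pow_le_pow_left₀ (norm_nonneg _) ((coef_le hf Z z).trans g5) 2
        _ = ((SG Z).card : ℝ) * (Real.exp 1 / Z) ^ 2 := by
            rw [sum_const, nsmul_eq_mul]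
        _ ≤ _ := by
            apply mul_le_mul_of_nonneg_right _ (by positivity)
            have : 1 ≤ Real.exp 1 * Z := by nlinarith
            linarith
    calc C * (K + Z) * ∑ z ∈ SG Z, ‖(f z : ℂ) * (bg Z z : ℂ)‖ ^ 2
        ≤ C * (K + Z) * ((10 * (Real.exp 1 * Z)) * (Real.exp 1 / Z) ^ 2) := by
          apply mul_le_mul_of_nonneg_left h2 (by positivity)
      _ = _ := by
          field_simp
          ring
  · -- the moments of `P`
    obtain ⟨C, hC, hmain⟩ := main_of hLS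
    refine ⟨max (9 * C) 4, le_trans (by norm_num) (le_max_right _ _), ?_⟩
    intro H r ℓ K hH hK hKe
    have hHpos : (0 : ℝ) < H := by exact_mod_cast hH
    have hH1 : (1 : ℝ) ≤ H := by exact_mod_cast hH
    have hM : 1 ≤ Real.exp ((r : ℝ) * ℓ / H) := Real.one_le_exp (by positivity)
    have hpr : ∀ p ∈ cc H r, p.Prime := fun p hp => (mem_cc hp).2.1
    have h1 := hmain H r ℓ ℓ K (Real.exp ((r : ℝ) * ℓ / H)) ℕ (AA H r ℓ) gg
      (fun n => (ge (cc H r) ℓ n : ℂ) * (f (gg n) : ℂ) / (n : ℂ)) hH hM hK (by nlinarith) (by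
        intro n hn
        obtain ⟨g1, g2, g3, g4⟩ := mem_AA hn
        rw [nm_gg g1]
        refine ⟨g3, g4.trans ?_⟩
        rw [← Real.exp_add]
        apply Real.exp_le_exp.2
        have : ((r : ℝ) + 1) * ℓ / H = (r : ℝ) * ℓ / H + ℓ / H := by ring
        rw [this]
        have : (ℓ : ℝ) / H ≤ ℓ := div_le_self (Nat.cast_nonneg _) hH1
        linarith) (by
        intro z hz
        have hz0 := nm_posR hD hz
        refine (norm_sum_le _ _).trans ?_
        calc ∑ n ∈ (AA H r ℓ).filter (fun n => gg n = z),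
              ‖(ge (cc H r) ℓ n : ℂ) * (f (gg n) : ℂ) / (n : ℂ)‖
            ≤ ∑ n ∈ (AA H r ℓ).filter (fun n => gg n = z), (ℓ.factorial : ℝ) / nm z := by
              apply sum_le_sum
              intro n hn
              rw [mem_filter] at hn
              have g1 := (mem_AA hn.1).1
              have g2 : nm z = n := by rw [← hn.2, nm_gg g1]
              rw [norm_div, norm_mul, Complex.norm_natCast, Complex.norm_natCast,
                Complex.norm_real, Real.norm_eq_abs, g2]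
              have g3 : (ge (cc H r) ℓ n : ℝ) ≤ ℓ.factorial := by
                exact_mod_cast smoo_ge_le _ hpr ℓ n
              have g4 := hf.bd (gg n)
              apply div_le_div_of_nonneg_right _ (Nat.cast_nonneg _)
              calc (ge (cc H r) ℓ n : ℝ) * |f (gg n)| ≤ (ℓ.factorial : ℝ) * 1 :=
                    mul_le_mul g3 g4 (abs_nonneg _) (Nat.cast_nonneg _)
                _ = _ := mul_one _
          _ = (((AA H r ℓ).filter (fun n => gg n = z)).card : ℝ) * ((ℓ.factorial : ℝ) / nm z) := by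
              rw [sum_const, nsmul_eq_mul]
          _ ≤ (dl H r ℓ z : ℝ) * ((ℓ.factorial : ℝ) / nm z) := by
              apply mul_le_mul_of_nonneg_right _ (by positivity)
              have g1 : ((AA H r ℓ).filter (fun n => gg n = z)).card ≤ dl H r ℓ z := by
                unfold dl
                apply card_le_card
                intro n hn
                rw [mem_filter] at hn ⊢
                exact ⟨hn.1, by rw [hn.2]⟩
              exact_mod_cast g1
          _ = _ := by ring)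
    refine le_trans (le_of_eq ?_) (h1.trans (numer hC (by omega)))
    apply sum_congr rfl
    intro κ _
    rw [mul_comm 2 ℓ, pow_mul, ← norm_pow, P2_pow hf, norm_mul, norm_pow, norm_neg, norm_one,
      one_pow, one_mul]
    congr 2
    apply sum_congr rfl
    intro n _
    unfold fc
    ring
  · -- mixed moments
    obtain ⟨C, hC, hmain⟩ := main_of hLS
    refine ⟨max (9 * C) 4, le_trans (by norm_num) (le_max_right _ _), ?_⟩
    intro H r ℓ K Z hH hZ hK hKe
    have hZ0 : 0 < Z := by linarith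
    have hHpos : (0 : ℝ) < H := by exact_mod_cast hH
    have hH1 : (1 : ℝ) ≤ H := by exact_mod_cast hH
    have hM : 1 ≤ Real.exp ((r : ℝ) * ℓ / H) := Real.one_le_exp (by positivity)
    have hM0 : 1 ≤ Z / Real.exp 1 * Real.exp ((r : ℝ) * ℓ / H) := by
      have : 1 ≤ Z / Real.exp 1 := by
        rw [le_div_iff₀ he]
        linarith
      nlinarith
    have hpr : ∀ p ∈ cc H r, p.Prime := fun p hp => (mem_cc hp).2.1
    have hnmj : ∀ j ∈ AA H r ℓ ×ˢ SG Z, (nm (gg j.1 * j.2) : ℝ) = (j.1 : ℝ) * nm j.2 := by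
      intro j hj
      rw [mem_product] at hj
      rw [nm_mul, nm_gg (mem_AA hj.1).1]
      push_cast
      rfl
    have h1 := hmain H r ℓ (ℓ + 2) K (Z / Real.exp 1 * Real.exp ((r : ℝ) * ℓ / H)) (ℕ × Gi)
      (AA H r ℓ ×ˢ SG Z) (fun j => gg j.1 * j.2)
      (fun j => ((ge (cc H r) ℓ j.1 : ℂ) * (f (gg j.1) : ℂ) / (j.1 : ℂ)) *
        ((f j.2 : ℂ) * (bg Z j.2 : ℂ))) hH hM0 hK (by
        calc (K : ℝ) ≤ Z * Real.exp ((r : ℝ) * ℓ / H) := hKe
          _ = _ := by field_simp) (by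
        intro j hj
        rw [hnmj j hj]
        rw [mem_product] at hj
        obtain ⟨g1, g2, g3, g4⟩ := mem_AA hj.1
        obtain ⟨k1, k2, k3⟩ := mem_SG hZ0 hj.2
        constructor
        · rw [mul_comm]
          exact mul_le_mul g3 k2 (by positivity) (Nat.cast_nonneg _)
        · have e1 : (j.1 : ℝ) * nm j.2 ≤
              Real.exp (((r : ℝ) + 1) * ℓ / H) * (Real.exp 1 * Z) :=
            mul_le_mul g4 k3 (Nat.cast_nonneg _) (Real.exp_pos _).le
          refine e1.trans ?_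
          have e2 : ((r : ℝ) + 1) * ℓ / H = (r : ℝ) * ℓ / H + ℓ / H := by ring
          have e3 : Real.exp ((ℓ + 2 : ℕ) : ℝ) = Real.exp ℓ * (Real.exp 1 * Real.exp 1) := by
            rw [← Real.exp_add, ← Real.exp_add]
            congr 1
            push_cast
            ring
          have e4 : Real.exp ((ℓ : ℝ) / H) ≤ Real.exp ℓ :=
            Real.exp_le_exp.2 (div_le_self (Nat.cast_nonneg _) hH1)
          rw [e2, Real.exp_add, e3]
          calc Real.exp ((r : ℝ) * ℓ / H) * Real.exp ((ℓ : ℝ) / H) * (Real.exp 1 * Z)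
              ≤ Real.exp ((r : ℝ) * ℓ / H) * Real.exp ℓ * (Real.exp 1 * Z) := by gcongr
            _ = _ := by field_simp) (by
        intro z hz
        have hz0 := nm_posR hD hz
        refine (norm_sum_le _ _).trans ?_
        calc ∑ j ∈ (AA H r ℓ ×ˢ SG Z).filter (fun j => gg j.1 * j.2 = z),
              ‖((ge (cc H r) ℓ j.1 : ℂ) * (f (gg j.1) : ℂ) / (j.1 : ℂ)) *
                ((f j.2 : ℂ) * (bg Z j.2 : ℂ))‖
            ≤ ∑ j ∈ (AA H r ℓ ×ˢ SG Z).filter (fun j => gg j.1 * j.2 = z),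
              (ℓ.factorial : ℝ) / nm z := by
              apply sum_le_sum
              intro j hj
              rw [mem_filter] at hj
              have g0 := hnmj j hj.1
              rw [hj.2] at g0
              have hj1 := hj.1
              rw [mem_product] at hj1
              have g1 := (mem_AA hj1.1).1
              have g3 : (ge (cc H r) ℓ j.1 : ℝ) ≤ ℓ.factorial := by
                exact_mod_cast smoo_ge_le _ hpr ℓ j.1
              have g4 := hf.bd (gg j.1)
              have g5 := coef_le hf Z j.2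
              rw [norm_mul, norm_div, norm_mul, Complex.norm_natCast, Complex.norm_natCast,
                Complex.norm_real, Real.norm_eq_abs, g0]
              have g6 : (ge (cc H r) ℓ j.1 : ℝ) * |f (gg j.1)| ≤ (ℓ.factorial : ℝ) := by
                calc (ge (cc H r) ℓ j.1 : ℝ) * |f (gg j.1)| ≤ (ℓ.factorial : ℝ) * 1 :=
                    mul_le_mul g3 g4 (abs_nonneg _) (Nat.cast_nonneg _)
                  _ = _ := mul_one _
              calc (ge (cc H r) ℓ j.1 : ℝ) * |f (gg j.1)| / (j.1 : ℝ) *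
                    ‖(f j.2 : ℂ) * (bg Z j.2 : ℂ)‖
                  ≤ (ℓ.factorial : ℝ) / (j.1 : ℝ) * (1 / nm j.2) := by gcongr
                _ = _ := by
                  rw [div_mul_div_comm, mul_one]
          _ = (((AA H r ℓ ×ˢ SG Z).filter (fun j => gg j.1 * j.2 = z)).card : ℝ) *
              ((ℓ.factorial : ℝ) / nm z) := by
              rw [sum_const, nsmul_eq_mul]
          _ ≤ (dl H r ℓ z : ℝ) * ((ℓ.factorial : ℝ) / nm z) := by
              apply mul_le_mul_of_nonneg_right _ (by positivity)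
              have g1 : ((AA H r ℓ ×ˢ SG Z).filter (fun j => gg j.1 * j.2 = z)).card ≤
                  dl H r ℓ z := by
                unfold dl
                apply card_le_card_of_injOn (fun j => j.1)
                · intro j hj
                  rw [mem_coe, mem_filter, mem_product] at hj
                  rw [mem_coe, mem_filter]
                  exact ⟨hj.1.1, ⟨j.2, hj.2.symm⟩⟩
                · intro j hj j' hj' hjj
                  rw [mem_coe, mem_filter, mem_product] at hj hj'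
                  have hjj' : j.1 = j'.1 := hjj
                  apply Prod.ext hjj'
                  have k1 := hj.2
                  have k2 := hj'.2
                  rw [← hjj'] at k2
                  have k3 : gg j.1 * (j.2 - j'.2) = 0 := by
                    rw [mul_sub, k1, k2, sub_self]
                  have k4 := congrArg nm k3
                  rw [nm_mul, (nm_eq_zero hD).2 rfl, nm_gg (mem_AA hj.1.1).1] at k4
                  rcases Nat.mul_eq_zero.1 k4 with k5 | k5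
                  · exact absurd k5 (mem_AA hj.1.1).1.1
                  · exact sub_eq_zero.1 ((nm_eq_zero hD).1 k5)
              exact_mod_cast g1
          _ = _ := by ring)
    refine le_trans (le_of_eq ?_) (h1.trans (numer hC le_rfl))
    apply sum_congr rfl
    intro κ _
    rw [P2_pow hf, G2_filter, mul_assoc, norm_mul, norm_pow, norm_neg, norm_one, one_pow, one_mul]
    congr 2
    unfold DP2
    rw [sum_mul_sum, ← sum_product']
    apply sum_congr rfl
    intro j hj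
    rw [mem_product] at hj
    rw [chi_mul κ (gg_ne (mem_AA hj.1).1) (mem_SG hZ0 hj.2).1]
    unfold fc
    ring

end Pool.Agent.N277.MS
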